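import Pool.Agent.H77.ST.MAM

/-!
# Consistency of the metrization statement for Noetherian bases of countable rank

There is a sentence `φ` of the language of set theory which says that every Noetherian base of
countable rank of a separable regular space is countable and that the space is metrizable
(`MetrizationIn E` is what `φ` says in a structure `(N, E)`), and `φ` is consistent with ZFC:

* every countable model of ZFC has a generic extension which is a model of ZFC and satisfies `φ`;
* if there is a model of ZFC (of any size) then there is a model of ZFC which satisfies `φ`;
* there is a countable model of ZFC which satisfies `φ` (a countable ground model is obtained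
  from Mathlib's type `ZFSet`).

The definitions used in the statement are in `Pool/Agent/H77/ST/Base.lean` (structures,
formulas, ZFC), `Pool/Agent/H77/ST/Gen.lean` (generic extensions) and
`Pool/Agent/H77/ST/MAD.lean` (spaces, real numbers). The forcing notion is not an iteration. By
Zorn's lemma the ground model has a maximal system of names (for relations on the first
uncountable ordinal) such that the finite free sets of the relations form a ccc poset, and this
poset is used.
-/

namespace Pool.Agent.Results.MP_d4a483_lc.Consistency

open ST ST.MA

/-- It is consistent with ZFC that every separable regular space which has a Noetherian base of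
countable rank is metrizable. -/
theorem result :
    ∃ φ : Fml 0,
      (∀ (N : Type) (E : N → N → Prop), Sat E φ Fin.elim0 ↔ MetrizationIn E) ∧
      (∀ (M : Type) (D : M → M → Prop), Countable M → ZFC D →
        ∃ (N : Type) (E : N → N → Prop) (i : M → N),
          ZFC E ∧ IsGenExt D E i ∧ Sat E φ Fin.elim0) ∧
      (∀ (M : Type) (D : M → M → Prop), ZFC D →
        ∃ (N : Type) (E : N → N → Prop), ZFC E ∧ Sat E φ Fin.elim0) ∧
      ∃ (N : Type) (E : N → N → Prop), ZFC E ∧ Countable N ∧ Sat E φ Fin.elim0 :=
  main

end Pool.Agent.Results.MP_d4a483_lc.Consistency
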