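import Pool.Agent.H29.SPL.MartinMetrizableProof

set_option autoImplicit false

/-!
# Noetherian bases of countable rank under Martin's axiom for `ℵ₁`

Under Martin's axiom for `ℵ₁` dense sets every Noetherian base of countable rank of a separable
regular (`T₃`) space is countable, hence the space is metrizable.
-/

namespace Pool.Agent.Results.MP_d4a483_lc.MartinMetrizable

open Set Cardinal TopologicalSpace

universe u

/-- Under Martin's axiom for `ℵ₁` dense sets, every Noetherian base of countable rank of a
separable regular (`T₃`, hence `T₁`) space is countable and the space is metrizable. -/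
theorem result (hMA : MartinAxiomAlephOne) (X : Type u) [TopologicalSpace X] [T3Space X]
    [SeparableSpace X] (𝔅 : Set (Set X)) (hB : IsTopologicalBasis 𝔅)
    (hN : NoetherianFamily 𝔅) (hR : CountableRank 𝔅) :
    𝔅.Countable ∧ MetrizableSpace X :=
  result_proof hMA X 𝔅 hB hN hR

end Pool.Agent.Results.MP_d4a483_lc.MartinMetrizable
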