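import Mathlib
import Pool.Agent.Results.MP_d4a483_lc.MartinMetrizable

set_option autoImplicit false

/-!
# Noetherian bases of countable rank: hereditarily Lindelöf in ZFC
-/

namespace Pool.Agent.Results.MP_d4a483_lc.ZFCLindelof

open Set Cardinal TopologicalSpace MartinMetrizable

universe u

/-- Every separable space (no separation axiom, no extra set theory) with a Noetherian base of
countable rank is hereditarily Lindelöf. -/
theorem result (X : Type u) [TopologicalSpace X] [SeparableSpace X] (𝔅 : Set (Set X))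
    (hB : IsTopologicalBasis 𝔅) (hN : NoetherianFamily 𝔅) (hR : CountableRank 𝔅) :
    HereditarilyLindelofSpace X := by
  have hΩ : ∀ a : (ℵ₁ : Cardinal.{0}).ord.ToType, (Iio a).Countable := fun a =>
    le_aleph0_iff_set_countable.mp (lt_aleph_one_iff.mp (by simpa using mk_Iio_lt a (by simp)))
  have : Uncountable (ℵ₁ : Cardinal.{0}).ord.ToType := by
    rw [← aleph0_lt_mk_iff, mk_ord_toType]
    exact aleph0_lt_aleph_one
  have hHL := hereditarilyLindelof hΩ hB hN hR
  refine HereditarilyLindelofSpace.of_forall_isOpen (fun s _ => ?_)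
  refine isLindelof_of_countable_subcover (fun {ι} U hU hs => ?_)
  obtain ⟨𝒞, h𝒞, h𝒞c, h𝒞u⟩ := hHL (range U) (by
    rintro _ ⟨i, rfl⟩
    exact hU i)
  have h1 : ∀ W : 𝒞, ∃ i, U i = W := fun W => h𝒞 W.2
  choose f hf using h1
  have : Countable 𝒞 := h𝒞c.to_subtype
  refine ⟨range f, countable_range f, fun x hx => ?_⟩
  obtain ⟨W, hW, hxW⟩ := h𝒞u (show x ∈ ⋃₀ range U by
    rw [sUnion_range]
    exact hs hx)
  refine mem_biUnion (mem_range_self (⟨W, hW⟩ : 𝒞)) ?_
  rw [hf ⟨W, hW⟩]
  exact hxW

end Pool.Agent.Results.MP_d4a483_lc.ZFCLindelof
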